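import Pool.Agent.Helper46.DC.Defs

set_option autoImplicit false

/-!
DC-4: the toggle lemma and products of simplices (project MP_6bc104_co).
-/

namespace Pool.Agent.DC

open Finset

private lemma two_cancel (a : ZMod 2) : a + a = 0 := CharTwo.add_self_eq_zero a

private lemma fun_two {α : Type} (f g : α → ZMod 2) : f = g + (f + g) := by
  funext a
  simp only [Pi.add_apply]
  have := two_cancel (g a)
  linear_combination (-1 : ZMod 2) * this

/-- local copy of the transitivity of acyclicity -/
private lemma trans_aux {α : Type} (K : Cx α) (d : ℕ) {S S' : Set α} (h1 : S' ⊆ S)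
    (a1 : RelAc K d S S') (a2 : RelAc K d S' ∅) : RelAc K d S ∅ := by
  intro n hn c hc hDc
  have hDc0 : K.D c = 0 := by
    funext a
    by_contra h
    exact (hDc a h).elim
  obtain ⟨w, a', hw, ha', hca⟩ := a1 n hn c hc (fun a ha => (hDc a ha).elim)
  have hDa' : K.D a' = 0 := by
    have := K.D_add (K.D w) a'
    rw [← hca, K.D_D, hDc0, zero_add] at this
    exact this.symm
  obtain ⟨w2, a'', hw2, ha'', hca'⟩ := a2 n hn a' ha' (fun a ha => by
    rw [hDa'] at ha
    exact (ha rfl).elim)
  refine ⟨w + w2, a'', ?_, ha'', ?_⟩
  · intro a ha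
    by_cases h : w a ≠ 0
    · exact hw a h
    · have h2 : w2 a ≠ 0 := by
        intro h3
        apply ha
        simp only [Pi.add_apply, h3, not_not.mp h, add_zero]
      exact ⟨h1 (hw2 a h2).1, (hw2 a h2).2⟩
  · rw [K.D_add, add_assoc, ← hca', ← hca]

theorem relAc_toggle {β : Type} [Fintype β] [DecidableEq β] (K : Cx (Finset β))
    (S S' : Set (Finset β)) (hS : Closed K S) (hsub : S' ⊆ S) (e : β)
    (hD : ∀ c, ∀ A ∈ S, A ∉ S' → K.D c A = ∑ q ∈ Aᶜ, c (insert q A))
    (hdeg : ∀ A ∈ S, A ∉ S' → ∀ q, q ∉ A → K.deg (insert q A) = K.deg A + 1)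
    (hins : ∀ A ∈ S, A ∉ S' → insert e A ∈ S)
    (hera : ∀ A ∈ S, A ∉ S' → A.erase e ∈ S ∧ A.erase e ∉ S')
    (hup : ∀ A ∈ S, A ∉ S' → ∀ q, insert q A ∉ S') (d : ℕ) : RelAc K d S S' := by
  classical
  intro n _ c hc hDc
  let w : Finset β → ZMod 2 := fun A =>
    if e ∈ A ∧ A.erase e ∈ S ∧ A.erase e ∉ S' then c (A.erase e) else 0
  have hw : Ch K S (n + 1) w := by
    intro A hA
    have hcond : e ∈ A ∧ A.erase e ∈ S ∧ A.erase e ∉ S' := by
      by_contra h
      exact hA (if_neg h)
    have hcA : c (A.erase e) ≠ 0 := by
      have : w A = c (A.erase e) := if_pos hcond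
      rwa [this] at hA
    obtain ⟨h1, h2, h3⟩ := hcond
    have hi : insert e (A.erase e) = A := insert_erase h1
    refine ⟨?_, ?_⟩
    · have := hins _ h2 h3
      rwa [hi] at this
    · have := hdeg _ h2 h3 e (notMem_erase e A)
      rw [hi, (hc _ hcA).2] at this
      exact this
  have key : ∀ A ∈ S, A ∉ S' → K.D w A = c A := by
    intro A hA hA'
    rw [hD w A hA hA']
    by_cases he : e ∈ A
    · -- e ∈ A
      obtain ⟨hB, hB'⟩ := hera A hA hA'
      have hw1 : ∀ q ∈ Aᶜ, w (insert q A) = c (insert q (A.erase e)) := by
        intro q hq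
        have hqA : q ∉ A := mem_compl.mp hq
        have hqe : q ≠ e := fun h => hqA (h ▸ he)
        have her : (insert q A).erase e = insert q (A.erase e) := by
          ext x
          simp only [mem_erase, mem_insert]
          constructor
          · rintro ⟨h1, h2 | h2⟩
            · exact Or.inl h2
            · exact Or.inr ⟨h1, h2⟩
          · rintro (h | ⟨h1, h2⟩)
            · exact ⟨h ▸ hqe, Or.inl h⟩
            · exact ⟨h1, Or.inr h2⟩
        change (if e ∈ insert q A ∧ (insert q A).erase e ∈ S ∧ (insert q A).erase e ∉ S' then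
          c ((insert q A).erase e) else 0) = _
        rw [her]
        by_cases hz : c (insert q (A.erase e)) = 0
        · rw [hz]
          simp
        · rw [if_pos]
          exact ⟨mem_insert_of_mem he, (hc _ hz).1, hup _ hB hB' q⟩
      rw [sum_congr rfl hw1]
      have hz : K.D c (A.erase e) = 0 := by
        by_contra h
        exact hB' (hDc _ h)
      rw [hD c _ hB hB'] at hz
      have hcompl : (A.erase e)ᶜ = insert e Aᶜ := by
        ext x
        simp only [mem_compl, mem_erase, mem_insert, not_and]
        by_cases hx : x = e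
        · simp [hx]
        · simp [hx]
      rw [hcompl, sum_insert (by simpa using he), insert_erase he] at hz
      have := two_cancel (c A)
      linear_combination hz - this
    · -- e ∉ A
      rw [sum_eq_single e]
      · change (if e ∈ insert e A ∧ (insert e A).erase e ∈ S ∧ (insert e A).erase e ∉ S' then
          c ((insert e A).erase e) else 0) = _
        rw [erase_insert he, if_pos ⟨mem_insert_self _ _, hA, hA'⟩]
      · intro q _ hqe
        change (if e ∈ insert q A ∧ (insert q A).erase e ∈ S ∧ (insert q A).erase e ∉ S' then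
          c ((insert q A).erase e) else 0) = 0
        rw [if_neg]
        rintro ⟨h, _⟩
        rcases mem_insert.mp h with h | h
        · exact hqe h.symm
        · exact he h
      · intro h
        exact (h (mem_compl.mpr he)).elim
  refine ⟨w, c + K.D w, hw, ?_, ?_⟩
  · intro A hA
    have hAn : A ∈ S ∧ K.deg A = n := by
      by_cases h : c A ≠ 0
      · exact hc A h
      · have h2 : K.D w A ≠ 0 := by
          intro h3
          apply hA
          simp only [Pi.add_apply, h3, not_not.mp h, add_zero]
        exact ⟨hS w (fun a ha => (hw a ha).1) A h2, K.D_hom n w (fun a ha => (hw a ha).2) A h2⟩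
    refine ⟨?_, hAn.2⟩
    by_contra h
    apply hA
    rw [Pi.add_apply, key A hAn.1 h]
    exact two_cancel _
  · exact fun_two c (K.D w)

/-! ### products of simplices -/

section prod

variable {U ι : Type} [Fintype U] [DecidableEq U] [Fintype ι] [DecidableEq ι]

private lemma not_tot_empty [Nonempty U] : ¬ Tot (∅ : Finset (U × (U ⊕ ι))) := by
  intro h
  obtain ⟨x, hx⟩ := h (Classical.arbitrary U)
  exact notMem_empty _ hx

private lemma tot_card {A : Finset (U × (U ⊕ ι))} (hA : Tot A) : Fintype.card U ≤ A.card := by
  classical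
  choose f hf using hA
  rw [← Finset.card_univ (α := U)]
  refine Finset.card_le_card_of_injOn (fun u => (u, f u)) (fun u _ => hf u) ?_
  intro u _ v _ h
  exact (Prod.mk.inj h).1

private lemma mem_cof_of_tot {A B : Finset (U × (U ⊕ ι))} (hA : Tot A) (hB : B ∈ cof A) :
    ∃ q, q ∉ A ∧ B = insert q A := by
  unfold cof at hB
  rw [if_pos hA] at hB
  obtain ⟨q, hq, rfl⟩ := mem_image.mp hB
  exact ⟨q, mem_compl.mp hq, rfl⟩

private lemma D_tot (K : Cx (Finset (U × (U ⊕ ι)))) (hK : IsForest K)
    (c : Finset (U × (U ⊕ ι)) → ZMod 2) (A : Finset (U × (U ⊕ ι))) (hA : Tot A) :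
    K.D c A = ∑ q ∈ Aᶜ, c (insert q A) := by
  classical
  rw [hK.1 c A]
  unfold cof
  rw [if_pos hA]
  rw [sum_image]
  intro q hq r _ h
  have hq' : q ∉ A := by simpa using hq
  have : q ∈ insert r A := by
    change insert q A = insert r A at h
    rw [← h]
    exact mem_insert_self _ _
  rcases mem_insert.mp this with h | h
  · exact h
  · exact (hq' h).elim

private lemma closed_prodSet (K : Cx (Finset (U × (U ⊕ ι)))) (hK : IsForest K)
    (O : Finset (U × (U ⊕ ι))) : Closed K (prodSet O) := by
  classical
  intro c hc A hA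
  rw [hK.1 c A] at hA
  obtain ⟨B, hB, hcB⟩ := exists_ne_zero_of_sum_ne_zero hA
  by_cases hT : Tot A
  · obtain ⟨q, _, rfl⟩ := mem_cof_of_tot hT hB
    rcases hc _ hcB with h | h
    · exact (insert_ne_empty _ _ h).elim
    · exact Or.inr ⟨hT, (subset_insert _ _).trans h.2⟩
  · unfold cof at hB
    rw [if_neg hT] at hB
    by_cases h : A = ∅
    · exact Or.inl h
    · rw [if_neg h] at hB
      exact (notMem_empty _ hB).elim

theorem relAc_prod {U ι : Type} [Fintype U] [DecidableEq U] [Fintype ι] [DecidableEq ι]
    [Nonempty U] (K : Cx (Finset (U × (U ⊕ ι)))) (hK : IsForest K) (O : Finset (U × (U ⊕ ι)))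
    (hO : Tot O) (d : ℕ) : RelAc K d (prodSet O) ∅ := by
  classical
  induction hm : O.card using Nat.strong_induction_on generalizing O with
  | _ m ih =>
  by_cases hex : ∃ v x x', (v, x) ∈ O ∧ (v, x') ∈ O ∧ x ≠ x'
  · obtain ⟨v, x, x', hx, hx', hne⟩ := hex
    have hT' : Tot (O.erase (v, x)) := by
      intro u
      by_cases hu : u = v
      · subst hu
        exact ⟨x', mem_erase.mpr ⟨fun h => hne (Prod.mk.inj h).2.symm, hx'⟩⟩
      · obtain ⟨y, hy⟩ := hO u
        exact ⟨y, mem_erase.mpr ⟨fun h => hu (Prod.mk.inj h).1, hy⟩⟩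
    have hsub : prodSet (O.erase (v, x)) ⊆ prodSet O := by
      rintro A (h | ⟨h1, h2⟩)
      · exact Or.inl h
      · exact Or.inr ⟨h1, h2.trans (erase_subset _ _)⟩
    have hmem : ∀ A ∈ prodSet O, A ∉ prodSet (O.erase (v, x)) →
        Tot A ∧ A ⊆ O ∧ (v, x) ∈ A := by
      intro A hA hA'
      rcases hA with h | ⟨h1, h2⟩
      · exact (hA' (Or.inl h)).elim
      · refine ⟨h1, h2, ?_⟩
        by_contra hn
        apply hA'
        refine Or.inr ⟨h1, ?_⟩
        intro y hy
        refine mem_erase.mpr ⟨?_, h2 hy⟩
        rintro rfl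
        exact hn hy
    have hnot : ∀ A : Finset (U × (U ⊕ ι)), (v, x) ∈ A → A ∉ prodSet (O.erase (v, x)) := by
      rintro A hA (h | ⟨_, h2⟩)
      · rw [h] at hA
        exact notMem_empty _ hA
      · exact notMem_erase _ _ (h2 hA)
    refine trans_aux K d hsub ?_ (ih _ ?_ _ hT' rfl)
    · apply relAc_toggle K (prodSet O) (prodSet (O.erase (v, x))) (closed_prodSet K hK O) hsub
        (v, x')
      · intro c A hA hA'
        exact D_tot K hK c A (hmem A hA hA').1
      · intro A hA hA' q hq
        obtain ⟨hT, _, hvx⟩ := hmem A hA hA'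
        rw [hK.2, hK.2]
        unfold fdeg
        have h1 : A.card ≠ 0 := card_ne_zero_of_mem hvx
        have h2 : (insert q A).card ≠ 0 := card_ne_zero_of_mem (mem_insert_self q A)
        rw [if_neg h1, if_neg h2, card_insert_of_notMem hq]
        have := tot_card hT
        omega
      · intro A hA hA'
        obtain ⟨hT, hAO, _⟩ := hmem A hA hA'
        refine Or.inr ⟨?_, ?_⟩
        · intro u
          obtain ⟨y, hy⟩ := hT u
          exact ⟨y, mem_insert_of_mem hy⟩
        · exact insert_subset hx' hAO
      · intro A hA hA'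
        obtain ⟨hT, hAO, hvx⟩ := hmem A hA hA'
        have hvx' : (v, x) ∈ A.erase (v, x') :=
          mem_erase.mpr ⟨fun h => hne (Prod.mk.inj h).2, hvx⟩
        refine ⟨Or.inr ⟨?_, (erase_subset _ _).trans hAO⟩, hnot _ hvx'⟩
        intro u
        by_cases hu : u = v
        · subst hu
          exact ⟨x, hvx'⟩
        · obtain ⟨y, hy⟩ := hT u
          exact ⟨y, mem_erase.mpr ⟨fun h => hu (Prod.mk.inj h).1, hy⟩⟩
      · intro A hA hA' q
        exact hnot _ (mem_insert_of_mem (hmem A hA hA').2.2)
    · rw [← hm]
      exact card_erase_lt_of_mem hx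
  · push Not at hex
    -- prodSet O = {∅, O}
    have hps : ∀ A ∈ prodSet O, A = ∅ ∨ A = O := by
      rintro A (h | ⟨h1, h2⟩)
      · exact Or.inl h
      · refine Or.inr (Subset.antisymm h2 ?_)
        rintro ⟨u, y⟩ hy
        obtain ⟨z, hz⟩ := h1 u
        have := hex u y z hy (h2 hz)
        rw [this]
        exact hz
    have hOne : O ≠ ∅ := by
      rintro rfl
      exact not_tot_empty hO
    have hOcard : O.card = Fintype.card U := by
      refine le_antisymm ?_ (tot_card hO)
      rw [← Finset.card_univ (α := U)]
      refine Finset.card_le_card_of_injOn Prod.fst (fun _ _ => mem_univ _) ?_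
      rintro ⟨u, y⟩ hy ⟨u', y'⟩ hy' h
      change u = u' at h
      subst h
      rw [hex u y y' hy hy']
    have hdegO : K.deg O = 1 := by
      rw [hK.2]
      unfold fdeg
      rw [if_neg (fun h => hOne (card_eq_zero.mp h))]
      omega
    have hdeg0 : K.deg ∅ = 0 := by
      rw [hK.2]
      unfold fdeg
      simp
    have hcof : ∀ B, B ∈ cof (∅ : Finset (U × (U ⊕ ι))) ↔ Tot B ∧ B.card = Fintype.card U := by
      intro B
      unfold cof
      rw [if_neg not_tot_empty, if_pos rfl]
      simp
    intro n _ c hc hDc
    have hDc0 : K.D c = 0 := by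
      funext a
      by_contra h
      exact (hDc a h).elim
    let w : Finset (U × (U ⊕ ι)) → ZMod 2 := fun A => if A = O ∧ n = 0 then c ∅ else 0
    have hDw : K.D w = c := by
      funext A
      rw [hK.1 w A]
      by_cases hT : Tot A
      · -- no contribution
        have h1 : ∑ B ∈ cof A, w B = 0 := by
          refine sum_eq_zero ?_
          intro B hB
          obtain ⟨q, hq, rfl⟩ := mem_cof_of_tot hT hB
          change (if insert q A = O ∧ n = 0 then c ∅ else 0) = 0
          rw [if_neg]
          rintro ⟨h, _⟩
          have h2 := congrArg Finset.card h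
          rw [card_insert_of_notMem hq, hOcard] at h2
          have := tot_card hT
          omega
        rw [h1]
        by_contra hcA
        have hcA' : c A ≠ 0 := fun h => hcA h.symm
        have hA := hc A hcA'
        rcases hps A hA.1 with h | h
        · subst h
          exact not_tot_empty hT
        · subst h
          -- n = 1; D c ∅ = c A
          have h0 : K.D c ∅ = c A := by
            rw [hK.1 c ∅, sum_eq_single A]
            · intro B _ hBA
              by_contra hcB
              have hB := hc B hcB
              rcases hps B hB.1 with h | h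
              · rw [h, hdeg0] at hB
                rw [hdegO] at hA
                omega
              · exact hBA h
            · intro h
              exact (h ((hcof A).mpr ⟨hO, hOcard⟩)).elim
          rw [hDc0] at h0
          exact hcA' h0.symm
      · by_cases hA : A = ∅
        · subst hA
          by_cases hn : n = 0
          · rw [sum_eq_single O]
            · change (if O = O ∧ n = 0 then c ∅ else 0) = _
              rw [if_pos ⟨rfl, hn⟩]
            · intro B _ hBO
              change (if B = O ∧ n = 0 then c ∅ else 0) = _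
              rw [if_neg]
              rintro ⟨h, _⟩
              exact hBO h
            · intro h
              exact (h ((hcof O).mpr ⟨hO, hOcard⟩)).elim
          · have hc0 : c ∅ = 0 := by
              by_contra h
              have := (hc _ h).2
              omega
            rw [hc0]
            refine sum_eq_zero ?_
            intro B _
            change (if B = O ∧ n = 0 then c ∅ else 0) = _
            rw [if_neg]
            rintro ⟨_, h⟩
            exact hn h
        · have h1 : cof A = ∅ := by
            unfold cof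
            rw [if_neg hT, if_neg hA]
          rw [h1, sum_empty]
          by_contra hcA
          have hcA' : c A ≠ 0 := fun h => hcA h.symm
          rcases hps A (hc A hcA').1 with h | h
          · exact hA h
          · exact hT (h ▸ hO)
    refine ⟨w, 0, ?_, ?_, ?_⟩
    · intro A hA
      have h : A = O ∧ n = 0 := by
        by_contra h
        exact hA (if_neg h)
      rw [h.1, h.2]
      exact ⟨Or.inr ⟨hO, Subset.rfl⟩, hdegO⟩
    · intro A hA
      exact (hA rfl).elim
    · rw [hDw, add_zero]

end prod

end Pool.Agent.DC
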